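import Pool.Agent.NL.StmtsA

/-!
# NL, row AMA: the machine of the case ALPHA
-/

set_option autoImplicit false

noncomputable section

namespace Pool.Agent.NL.H39

theorem step_mono {Z : Type}
    [NormedAddCommGroup Z] [NormedSpace ℝ Z] {B : Submodule ℝ Z} {v : Z} {N : ℕ} {p : ℕ → ℝ}
    {s : ℕ → ℕ} {w : ℕ → Z} {η η' C : ℝ} (h : NE.Step B v N p s w η C) (hη : η ≤ η') :
    NE.Step B v N p s w η' C where
  two := h.two
  pos := h.pos
  sum := h.sum
  lt := h.lt
  up := fun b hb A => (h.up b hb A).trans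
    (mul_le_mul_of_nonneg_right (by linarith) (norm_nonneg _))
  lo := fun b hb a => (h.lo b hb a).trans
    (mul_le_mul_of_nonneg_right (by linarith) (norm_nonneg _))
  inn := h.inn
  nz := h.nz

theorem ret_mono {X Z : Type} [NormedAddCommGroup X] [NormedSpace ℝ X]
    [NormedAddCommGroup Z] [NormedSpace ℝ Z] {Ψ : X →ₗᵢ[ℝ] Z} {B : Submodule ℝ Z} {v : Z} {N : ℕ}
    {p : ℕ → ℝ} {w : ℕ → Z} {η η' τ : ℝ} {y : X} (h : NE.Ret Ψ B v N p w η τ y) (hη : η ≤ η') :
    NE.Ret Ψ B v N p w η' τ y := by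
  intro b hb A
  refine (h b hb A).trans (add_le_add ?_ ?_)
  · exact mul_le_mul_of_nonneg_right (by linarith) (norm_nonneg _)
  · exact mul_le_mul_of_nonneg_right hη (abs_nonneg _)

theorem ama (hMov : MovStmt) (hAst : AstStmt) (hAcf : AcfStmt) (hRcn : RcnStmt) : AmaStmt := by
  intro X _ _ f F G Ψ hC hT a ha x hG hR
  have hP1 : Pb (Finsupp.single x (1 : ℝ)) := by
    refine ⟨fun y => ?_, ?_⟩
    · rw [Finsupp.single_apply]
      split_ifs
      · exact zero_le_one
      · exact le_refl _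
    · rw [Finsupp.sum_single_index rfl]
  have hs1 : (Finsupp.single x (1 : ℝ)).support = {x} :=
    Finsupp.support_single_ne_zero x one_ne_zero
  have hV1 : V G (Finsupp.single x 1) = G x := by
    simp [V]
  have hr : a ≤ rho Ψ (G x) := by
    rw [← hV1]
    exact (hRcn X G Ψ a {x} hR).1 _ (by rw [hs1]) hP1
  have hrle : ∀ (z : Z) (y : X), rho Ψ z ≤ ‖z - Ψ y‖ := by
    intro z y
    rw [← dist_eq_norm]
    exact Metric.infDist_le_dist_of_mem ⟨y, rfl⟩
  have hGx : rho Ψ (G x) ≤ 1 := by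
    have h1 := hrle (G x) 0
    rw [map_zero, sub_zero] at h1
    exact h1.trans (hC.bdd x)
  have ha1 : a ≤ 1 := hr.trans hGx
  have hVb : ∀ q : ℝ →₀ ℝ, Pb q → ‖V G q‖ ≤ 1 := by
    intro q hq
    have h1 : V G q = ∑ r ∈ q.support, q r • G r := by
      rw [V, Finsupp.linearCombination_apply, Finsupp.sum]
    rw [h1]
    refine (norm_sum_le _ _).trans ?_
    have h2 : ∑ r ∈ q.support, q r = 1 := hq.2
    rw [← h2]
    refine Finset.sum_le_sum fun r _ => ?_
    rw [norm_smul, Real.norm_eq_abs, abs_of_nonneg (hq.1 r)]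
    exact mul_le_of_le_one_right (hq.1 r) (hC.bdd r)
  refine ⟨ha1, ⟨?_, ?_, ?_, ?_⟩⟩
  · -- start
    refine ⟨fun _ => Finsupp.single x 1, ⟨{x}, ⟨hG, ?_, ?_, ?_, ?_⟩⟩, ?_⟩
    · exact fun _ _ => hP1
    · intro _ _
      rw [hs1]
    · intro _ _
      rw [hs1]
      exact hR
    · intro i hi j hj hij
      omega
    · show V G (Finsupp.single x 1) ≠ 0
      rw [hV1]
      intro h0
      have h1 := hrle (G x) 0
      rw [h0, map_zero, sub_zero, norm_zero] at h1
      rw [h0] at hr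
      linarith
  · -- bdd
    rintro n q ⟨W, hW⟩ i hi
    exact hVb _ (hW.pb i hi)
  · -- far
    rintro n q ⟨W, hW⟩ i hi y
    exact ((hRcn X G Ψ a _ (hW.nr i hi)).1 _ subset_rfl (hW.pb i hi)).trans (hrle _ _)
  · -- step
    rintro n q ⟨W, hW⟩ u hu Q hQ η hη
    have hη' : 0 < min η 1 := lt_min hη one_pos
    have hη1 : min η 1 ≤ 1 := min_le_right _ _
    have hηη : min η 1 ≤ η := min_le_left _ _
    obtain ⟨c, hc⟩ : ∃ c : ℝ, c = 1 + 4 * n / a := ⟨_, rfl⟩
    have hc1 : 1 ≤ c := by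
      rw [hc]
      have : (0 : ℝ) ≤ 4 * n / a := by positivity
      linarith
    have hc0 : 0 < c := by linarith
    obtain ⟨ε, hε⟩ : ∃ ε : ℝ, ε = a * min η 1 / (160 * c) := ⟨_, rfl⟩
    have hε0 : 0 < ε := by rw [hε]; positivity
    have hεc : 160 * (ε * c) = a * min η 1 := by
      rw [hε]
      field_simp
    have haη : a * min η 1 ≤ a := by
      have := mul_le_mul_of_nonneg_left hη1 ha.le
      linarith
    have hεεc : ε ≤ ε * c := by
      have := mul_le_mul_of_nonneg_left hc1 hε0.le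
      linarith
    have hεa : ε ≤ a := by
      have h0 : 0 < ε * c := by positivity
      linarith
    have hε1 : ε ≤ 1 := hεa.trans ha1
    have : FiniteDimensional ℝ (Submodule.span ℝ Q) := FiniteDimensional.span_of_finite ℝ hQ
    obtain ⟨N, ϖ, J, φ, T, y, hmv⟩ := hMov X f F G Ψ hC hT a ε hε0 hεa W hW.gn (q u)
      (hW.pb u hu) (hW.sub u hu) (hW.nr u hu) (Submodule.span ℝ Q)
    have hsit : Sit f F G Ψ a ε n u q W (Submodule.span ℝ Q) N ϖ J φ T y :=
      ⟨hC, ha, hε0, hε1, hW, hu, hmv⟩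
    obtain ⟨hst, hrt⟩ := hAst X f F G Ψ a ε n u q W Q N ϖ J φ T y (min η 1) hsit ha1 hη' hη1
      (by
        rw [← hc]
        have h0 : 0 < ε * c := by positivity
        nlinarith)
    have hcf := hAcf X f F G Ψ a ε n u q W (Submodule.span ℝ Q) N ϖ J φ T y hsit (a / 16)
      (by positivity) (by linarith)
    exact ⟨N, fun j => ϖ (ci N j), fun _ => 0, fun j => lam (q u) J φ (a / 16) (ci N j),
      ∑ r ∈ (q u).support, q u r • y r, ⟨T N, hcf⟩, step_mono hst hηη, ret_mono hrt hηη⟩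

end Pool.Agent.NL.H39
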