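import Pool.Agent.NL.StmtsB

/-!
# NL, row CUX: the path of a point
-/

set_option autoImplicit false

noncomputable section

namespace Pool.Agent.NL.H39

open Classical in
/-- the path of `x` -/
def pth (σ : ℕ → ℕ) (α : ℕ → ℝ) (x : ℝ) : ℕ → ℕ
  | 0 => 0
  | (n + 1) => if n = 0 then 0 else
      if pth σ α x n = σ n ∧ α n ≤ x then n else pth σ α x n

theorem cux : CuxStmt := by
  intro X _ _ σ w Y M α hB hA x hx0 hx1
  have key : ∀ n, 1 ≤ n → pth σ α x n < n ∧ α (pth σ α x n) ≤ x ∧
      x < α (pth σ α x n) + w n (pth σ α x n) := by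
    intro n hn
    induction n, hn using Nat.le_induction with
    | base =>
      have h1 : pth σ α x 1 = 0 := by simp [pth]
      rw [h1, hA.zero, hB.one]
      exact ⟨by norm_num, hx0, by linarith⟩
    | succ n hn ih =>
      obtain ⟨h1, h2, h3⟩ := ih
      have hn0 : n ≠ 0 := by omega
      by_cases hc : pth σ α x n = σ n ∧ α n ≤ x
      · have e : pth σ α x (n + 1) = n := by
          rw [pth, if_neg hn0, if_pos hc]
        rw [e]
        refine ⟨by omega, hc.2, ?_⟩
        rw [hc.1, hB.w2 n hn] at h3
        rw [hA.suc n hn]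
        linarith
      · have e : pth σ α x (n + 1) = pth σ α x n := by
          rw [pth, if_neg hn0, if_neg hc]
        rw [e]
        refine ⟨by omega, h2, ?_⟩
        by_cases hs : pth σ α x n = σ n
        · have h4 : x < α n := by
            by_contra h5
            exact hc ⟨hs, not_lt.mp h5⟩
          rw [hA.suc n hn] at h4
          rw [hs]
          exact h4
        · rw [hB.w1 n _ h1 hs]
          exact h3
  refine ⟨pth σ α x, ?_, fun n hn => (key n hn).2⟩
  intro n hn
  refine ⟨(key n hn).1, ?_⟩
  have hn0 : n ≠ 0 := by omega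
  by_cases hc : pth σ α x n = σ n ∧ α n ≤ x
  · right
    exact ⟨hc.1, by rw [pth, if_neg hn0, if_pos hc]⟩
  · left
    rw [pth, if_neg hn0, if_neg hc]

end Pool.Agent.NL.H39
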